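import Mathlib

namespace Pool.Agent.Results.MP_b3a441_al.Cover

universe u

/-- A Steiner loop: identity `e`, `xy = yx`, `x(xy) = y` (so translations are bijections). -/
structure Steiner (X : Type u) where
  mul : X → X → X
  e : X
  e_mul : ∀ x, mul e x = x
  mul_e : ∀ x, mul x e = x
  comm : ∀ x y, mul x y = mul y x
  canc : ∀ x y, mul x (mul x y) = y

/-- The subloop generated by `x, y, z`. -/
inductive Gen {X : Type u} (S : Steiner X) (x y z : X) : X → Prop
  | e : Gen S x y z S.e
  | fst : Gen S x y z x
  | snd : Gen S x y z y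
  | thd : Gen S x y z z
  | mul {a b} : Gen S x y z a → Gen S x y z b → Gen S x y z (S.mul a b)

/-- Associativity propagates. -/
def Propagates {X : Type u} (S : Steiner X) : Prop :=
  ∀ x y z, S.mul x (S.mul y z) = S.mul (S.mul x y) z → ∀ a b c, Gen S x y z a → Gen S x y z b →
    Gen S x y z c → S.mul a (S.mul b c) = S.mul (S.mul a b) c

open Classical

variable {F : Type u} (S : Steiner F)

lemma sq (x : F) : S.mul x x = S.e := by
  have := S.canc x S.e
  rwa [S.mul_e] at this

lemma c2 (x y : F) : S.mul y (S.mul x y) = x := by rw [S.comm x y, S.canc]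

lemma c3 (x y : F) : S.mul (S.mul x y) x = y := by rw [S.comm, S.canc]

lemma c4 (x y : F) : S.mul (S.mul x y) y = x := by rw [S.comm, c2]

lemma inj {x y z : F} (h : S.mul x y = S.mul x z) : y = z := by rw [← S.canc x y, h, S.canc]

lemma ne1 {x y : F} (h : x ≠ y) : S.mul x y ≠ S.e := fun k => h (inj S ((sq S x).trans k.symm))

lemma ne2 {x y : F} (h : y ≠ S.e) : S.mul x y ≠ x := fun k => h (inj S (k.trans (S.mul_e x).symm))

lemma ne3 {x y : F} (h : x ≠ S.e) : S.mul x y ≠ y := by rw [S.comm]; exact ne2 S h

noncomputable def th (x y : F) : Set F → ZMod 2 :=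
  if x = S.e ∨ y = S.e ∨ x = y then 0 else Pi.single {x, y, S.mul x y} 1

lemma thc (x y : F) : th S x y = th S y x := by
  unfold th
  rw [Set.insert_comm, S.comm x y]
  congr 1
  exact propext (by tauto)

lemma the (x : F) : th S S.e x = 0 := by simp [th]

lemma the' (x : F) : th S x S.e = 0 := by simp [th]

lemma thd (x : F) : th S x x = 0 := by simp [th]

lemma thm (x y : F) : th S x (S.mul x y) = th S x y := by
  by_cases h1 : x = S.e
  · rw [h1, the, the]
  by_cases h2 : y = S.e
  · rw [h2, S.mul_e, thd, the']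
  by_cases h3 : x = y
  · rw [h3, sq, thd, the']
  unfold th
  rw [if_neg (by simp [h1, ne1 S h3, (ne2 S h2).symm]), if_neg (by simp [h1, h2, h3]), S.canc,
    Set.pair_comm]

lemma two (a : Set F → ZMod 2) : a + a = 0 := funext fun _ => CharTwo.add_self_eq_zero _

noncomputable def ext : Steiner (F × (Set F → ZMod 2)) where
  mul p q := (S.mul p.1 q.1, p.2 + q.2 + th S p.1 q.1)
  e := (S.e, 0)
  e_mul p := by simp [S.e_mul, the]
  mul_e p := by simp [S.mul_e, the']
  comm p q := by rw [S.comm, thc, add_comm p.2]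
  canc p q := by
    refine Prod.ext (S.canc _ _) ?_
    simp only [thm]
    rw [← add_assoc, ← add_assoc, two, zero_add, add_assoc, two, add_zero]

def K (u v x : F) : Prop := x = S.e ∨ x = u ∨ x = v ∨ x = S.mul u v

lemma Km {u v x y : F} (hx : K S u v x) (hy : K S u v y) : K S u v (S.mul x y) := by
  rcases hx with h | h | h | h <;> rcases hy with k | k | k | k <;>
    simp [h, k, K, S.e_mul, S.mul_e, sq, S.canc, c2, c3, c4, S.comm v u]

lemma Ka {u v x y z : F} (hx : K S u v x) (hy : K S u v y) (hz : K S u v z) :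
    S.mul x (S.mul y z) = S.mul (S.mul x y) z ∧
      th S y z + th S x (S.mul y z) = th S x y + th S (S.mul x y) z := by
  have t1 : th S v u = th S u v := thc S _ _
  have t2 : th S u (S.mul u v) = th S u v := thm S _ _
  have t3 : th S (S.mul u v) u = th S u v := by rw [thc, t2]
  have t4 : th S v (S.mul u v) = th S u v := by rw [S.comm, thm, t1]
  have t5 : th S (S.mul u v) v = th S u v := by rw [thc, t4]
  have m : S.mul v u = S.mul u v := S.comm _ _
  generalize hw : S.mul u v = w at *
  have m1 : S.mul u w = v := by rw [← hw, S.canc]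
  have m2 : S.mul w u = v := by rw [← hw, c3]
  have m3 : S.mul v w = u := by rw [← hw, c2]
  have m4 : S.mul w v = u := by rw [← hw, c4]
  simp only [K, hw] at hx hy hz
  rcases hx with h | h | h | h <;> rcases hy with k | k | k | k <;> rcases hz with l | l | l | l <;>
    simp only [h, k, l, S.e_mul, S.mul_e, sq, hw, m, m1, m2, m3, m4, the, the', thd, t1, t2, t3,
      t4, t5, two, add_zero, zero_add, and_self]

lemma deg {x y z : F} (h : th S y z + th S x (S.mul y z) = th S x y + th S (S.mul x y) z) :
    ∃ u v, K S u v x ∧ K S u v y ∧ K S u v z := by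
  by_cases h1 : x = S.e
  · exact ⟨y, z, by simp [K, h1]⟩
  by_cases h2 : y = S.e
  · exact ⟨x, z, by simp [K, h2]⟩
  by_cases h3 : x = y
  · exact ⟨y, z, by simp [K, h3]⟩
  refine ⟨x, y, by simp [K], by simp [K], by_contra fun hz => ?_⟩
  simp only [K, not_or] at hz
  have k : ∀ a b, ({x, y, S.mul x y} : Set F) ≠ {a, b, S.mul a b} →
      th S a b {x, y, S.mul x y} = 0 := fun a b hab => by
    unfold th
    split_ifs
    · rfl
    · exact Pi.single_eq_of_ne hab _
  have := congrFun h {x, y, S.mul x y}
  rw [Pi.add_apply, Pi.add_apply, k y z, k x, k _ z, th, if_neg (by simp [h1, h2, h3])] at this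
  · simp at this
  · intro e
    have : z ∈ ({x, y, S.mul x y} : Set F) := by rw [e]; simp
    simp [hz] at this
  · intro e
    have : y ∈ ({x, S.mul y z, S.mul x (S.mul y z)} : Set F) := by rw [← e]; simp
    rcases this with a | a | a
    · exact h3 a.symm
    · exact ne2 S hz.1 a.symm
    · refine hz.2.1 (inj S (x := y) ?_)
      rw [S.comm y x]; conv_rhs => rw [a, S.canc]
  · intro e
    have : z ∈ ({x, y, S.mul x y} : Set F) := by rw [e]; simp
    simp [hz] at this

theorem result (F : Type u) (S : Steiner F) : ∃ (X : Type u) (T : Steiner X) (f : X → F),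
    Propagates T ∧ Function.Surjective f ∧ (∀ x y, f (T.mul x y) = S.mul (f x) (f y)) ∧
      (Finite F → Finite X) := by
  refine ⟨_, ext S, Prod.fst, fun x y z h a b c ha hb hc => ?_, Prod.fst_surjective,
    fun _ _ => rfl, fun _ => inferInstance⟩
  obtain ⟨u, v, hx, hy, hz⟩ : ∃ u v, K S u v x.1 ∧ K S u v y.1 ∧ K S u v z.1 := by
    refine deg S ?_
    have := congrArg Prod.snd h
    simp only [ext] at this
    linear_combination this
  have k : ∀ a, Gen (ext S) x y z a → K S u v a.1 := fun a ha => by
    induction ha with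
    | e => exact Or.inl rfl
    | fst => exact hx
    | snd => exact hy
    | thd => exact hz
    | mul _ _ h1 h2 => exact Km S h1 h2
  obtain ⟨h1, h2⟩ := Ka S (k a ha) (k b hb) (k c hc)
  refine Prod.ext h1 ?_
  simp only [ext]
  linear_combination h2

end Pool.Agent.Results.MP_b3a441_al.Cover
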